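import Pool.Agent.H72.EM.Basic

/-!
# Board `emc_modules`, row H2: chords and the cycle edges of colour `1` connect the host
-/

set_option autoImplicit false

open Finset Pool.Agent.H72.EM

namespace Pool.Agent.H54.EMC

variable {κ : ℕ}

/-- The relation is symmetric. -/
theorem stp_symm {V : Type} {τ : Dt V → Dt V} {col : Dt V → Fin 3} (h : IsPG τ)
    (hc : IsCol τ col) (d : Fin 3) {v w : V} (hs : stp τ col d v w) : stp τ col d w v := by
  obtain ⟨a, h1, h2⟩ := hs
  have e : ((τ (v, a)).1, (τ (v, a)).2) = τ (v, a) := rfl
  refine ⟨(τ (v, a)).2, ?_, ?_⟩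
  · rw [← h2, e, hc.inv]
    exact h1
  · rw [← h2, e, h.inv]

/-- The representative of a half of a block. -/
def rep : Bk κ × Bool → Hs κ
  | (b, false) => (b, some .ax)
  | (b, true) => (b, some .bx)

/-- The index of a block. -/
def idx : Bk κ → ℕ
  | (i, none) => i.val * (2 * κ + 3)
  | (i, some j) => i.val * (2 * κ + 3) + (j.val + 1)

theorem idx_pvB (b : Bk κ) (hb : b ≠ (zr, none)) : idx (pvB b) < idx b := by
  obtain ⟨i, o⟩ := b
  rcases o with _ | j
  · have hi : i.val ≠ 0 := fun h => hb (by
      have : i = zr := Fin.ext h
      rw [this])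
    have h1 := dn_val i
    rw [if_neg hi] at h1
    show (dn i).val * (2 * κ + 3) + ((lst : Ix κ).val + 1) < i.val * (2 * κ + 3)
    rw [h1, lst_val]
    obtain ⟨n, hn⟩ := Nat.exists_eq_succ_of_ne_zero hi
    rw [hn]
    simp only [Nat.succ_eq_add_one, Nat.add_sub_cancel]
    nlinarith
  · rw [pvB_some]
    split_ifs with h
    · show i.val * (2 * κ + 3) < i.val * (2 * κ + 3) + (j.val + 1)
      omega
    · have h1 := dn_val j
      rw [if_neg h] at h1
      show i.val * (2 * κ + 3) + ((dn j).val + 1) < i.val * (2 * κ + 3) + (j.val + 1)
      omega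

theorem pf_H2 (h : T_GC) (hTI : T_TI) : T_H2 := by
  intro κ c hc
  obtain ⟨hPG, hCol⟩ := hTI κ c hc
  set Cx : Hs κ → Hs κ → Prop := Relation.ReflTransGen (stp (ht c) hcol 2) with hCx
  have hsym : ∀ v w, Cx v w → Cx w v := by
    intro v w hvw
    induction hvw with
    | refl => exact Relation.ReflTransGen.refl
    | tail _ h2 ih => exact Relation.ReflTransGen.head (stp_symm hPG hCol 2 h2) ih
  have htr : ∀ u v w, Cx u v → Cx v w → Cx u w := fun u v w => Relation.ReflTransGen.trans
  have hone : ∀ v w, stp (ht c) hcol 2 v w → Cx v w := fun v w => Relation.ReflTransGen.single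
  -- chords
  have chord : ∀ v : Hs κ, Cx v (sg c v) := by
    rintro ⟨b, s⟩
    exact hone _ _ ⟨0, by simp [hcol], rfl⟩
  -- cycle edges
  have fwd : ∀ (b : Bk κ) (s : Option Sl), ncol s = 1 → Cx (b, s) (nx (b, s)) := by
    intro b s hs
    refine hone _ _ ⟨2, ?_, rfl⟩
    show ncol s ≠ 2
    rw [hs]
    decide
  have N1 : ∀ b : Bk κ, Cx (b, none) (b, some .ax) := fun b => fwd b none rfl
  have V1 : ∀ b : Bk κ, Cx (b, some .bv) (b, some .bx) := fun b => fwd b (some .bv) rfl
  have A1 : ∀ b : Bk κ, Cx (b, some .ay) (b, some .az) := fun b => fwd b (some .ay) rfl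
  have B1 : ∀ b : Bk κ, Cx (b, some .by') (b, some .bz) := fun b => fwd b (some .by') rfl
  have A2 : ∀ b : Bk κ, Cx (b, some .ay) (pvB b, some .bz) := by
    rintro ⟨i, o⟩
    rcases o with _ | j
    · exact chord ((i, none), some .ay)
    · exact chord ((i, some j), some .ay)
  have B2 : ∀ b : Bk κ, b ≠ (zr, none) → Cx (b, some .az) (b, some .by') := by
    rintro ⟨i, o⟩ hb
    rcases o with _ | j
    · have hi : i.val ≠ 0 := fun h => hb (by
        have : i = zr := Fin.ext h
        rw [this])
      have h1 := chord ((i, none), some .az)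
      have h2 : sg c ((i, none), some Sl.az) = ((i, none), some .by') := by
        show (if i.val = 0 then ((i, none), some Sl.bx) else ((i, none), some Sl.by')) = _
        rw [if_neg hi]
      rwa [h2] at h1
    · exact chord ((i, some j), some .az)
  have Z1 : Cx (((zr : Ix κ), none), some .az) (((zr : Ix κ), none), some .bx) :=
    chord (((zr : Ix κ), none), some .az)
  have Z2 : Cx (((zr : Ix κ), none), some .by') (((lst : Ix κ), some lst), some .bx) :=
    chord (((zr : Ix κ), none), some .by')
  have hGS : ∀ u v : Bk κ × Bool, GS c u v → Cx (rep u) (rep v) := by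
    intro u v huv
    cases huv with
    | link i => exact htr _ _ _ (hsym _ _ (N1 _)) (htr _ _ _ (chord ((i, none), none)) (V1 _))
    | par i j b hij =>
      cases b with
      | false =>
        have h1 := chord ((i, some j), none)
        have h2 : sg c ((i, some j), none) = ((j, some i), none) := by
          show (if c i j = 0 then ((j, some i), some Sl.bv) else ((j, some i), none)) = _
          rw [if_neg hij]
        rw [h2] at h1
        exact htr _ _ _ (hsym _ _ (N1 _)) (htr _ _ _ h1 (N1 _))
      | true =>
        have h1 := chord ((i, some j), some .bv)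
        have h2 : sg c ((i, some j), some Sl.bv) = ((j, some i), some .bv) := by
          show (if c i j = 0 then ((j, some i), none) else ((j, some i), some Sl.bv)) = _
          rw [if_neg hij]
        rw [h2] at h1
        exact htr _ _ _ (hsym _ _ (V1 _)) (htr _ _ _ h1 (V1 _))
    | cross i j hij =>
      have h1 := chord ((i, some j), none)
      have h2 : sg c ((i, some j), none) = ((j, some i), some .bv) := by
        show (if c i j = 0 then ((j, some i), some Sl.bv) else ((j, some i), none)) = _
        rw [if_pos hij]
      rw [h2] at h1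
      exact htr _ _ _ (hsym _ _ (N1 _)) (htr _ _ _ h1 (V1 _))
    | low i j hij =>
      have h1 := chord ((i, some j), some .ax)
      have h2 : sg c ((i, some j), some Sl.ax) = ((i, some j), some .bx) := by
        show (if j.val < i.val then ((i, some j), some Sl.bx)
          else if i.val < j.val then ((i, some (dn j)), some Sl.bx)
          else if i.val = 0 then ((lst, none), some Sl.bx)
          else ((dn i, some lst), some Sl.bx)) = _
        rw [if_pos hij]
      rw [h2] at h1
      exact h1
    | row i j hij hj =>
      have h1 := chord ((i, some j), some .bx)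
      have h2 : sg c ((i, some j), some Sl.bx) = ((i, some (up j)), some .ax) := by
        show (if j.val < i.val then ((i, some j), some Sl.ax)
          else if j.val < 2 * κ + 1 then ((i, some (up j)), some Sl.ax)
          else if i.val < 2 * κ + 1 then ((up i, some (up i)), some Sl.ax)
          else ((zr, none), some Sl.by')) = _
        rw [if_neg (by omega), if_pos hj]
      rw [h2] at h1
      exact h1
    | nextrow i hi =>
      have h1 := chord ((i, some lst), some .bx)
      have h2 : sg c ((i, some lst), some Sl.bx) = ((up i, some (up i)), some .ax) := by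
        show (if (lst : Ix κ).val < i.val then ((i, some lst), some Sl.ax)
          else if (lst : Ix κ).val < 2 * κ + 1 then ((i, some (up lst)), some Sl.ax)
          else if i.val < 2 * κ + 1 then ((up i, some (up i)), some Sl.ax)
          else ((zr, none), some Sl.by')) = _
        have h3 := lst_val (κ := κ)
        rw [if_neg (by omega), if_neg (by omega), if_pos hi]
      rw [h2] at h1
      exact h1
    | twin i => exact chord ((i, none), some .ax)
    | shift i j h0 hj hi =>
      have h1 := chord ((i, none), some .bx)
      have h2 : sg c ((i, none), some Sl.bx) = ((j, none), some .bx) := by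
        show (if i.val = 0 then ((i, none), some Sl.az)
          else if i.val = 2 * κ + 1 then ((zr, some zr), some Sl.ax)
          else if h : i.val ≤ κ then ((⟨i.val + κ, by omega⟩, none), some Sl.bx)
          else ((⟨i.val - κ, by omega⟩, none), some Sl.bx)) = _
        rw [if_neg (by omega), if_neg (by omega), dif_pos hi]
        have e : (⟨i.val + κ, by omega⟩ : Ix κ) = j := Fin.ext hj.symm
        rw [e]
      rw [h2] at h1
      exact h1
    | start =>
      have h1 := chord (((lst : Ix κ), none), some .bx)
      have h2 : sg c (((lst : Ix κ), none), some Sl.bx) = ((zr, some zr), some .ax) := by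
        have h3 := lst_val (κ := κ)
        show (if (lst : Ix κ).val = 0 then ((lst, none), some Sl.az)
          else if (lst : Ix κ).val = 2 * κ + 1 then ((zr, some zr), some Sl.ax)
          else if h : (lst : Ix κ).val ≤ κ then
            ((⟨(lst : Ix κ).val + κ, by omega⟩, none), some Sl.bx)
          else ((⟨(lst : Ix κ).val - κ, by omega⟩, none), some Sl.bx)) = _
        rw [if_neg (by omega), if_pos h3]
      rw [h2] at h1
      exact h1
  have hEq : ∀ u v : Bk κ × Bool, Relation.EqvGen (GS c) u v → Cx (rep u) (rep v) := by
    intro u v huv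
    induction huv with
    | rel _ _ hr => exact hGS _ _ hr
    | refl _ => exact Relation.ReflTransGen.refl
    | symm _ _ _ ih => exact hsym _ _ ih
    | trans _ _ _ _ _ ih1 ih2 => exact htr _ _ _ ih1 ih2
  -- all vertices are connected to the representatives
  have hrr : ∀ u v : Bk κ × Bool, Cx (rep u) (rep v) := fun u v => hEq u v (h κ c hc u v)
  set r0 : Hs κ := rep (((zr : Ix κ), none), false) with hr0
  have hr : ∀ u : Bk κ × Bool, Cx (rep u) r0 := fun u => hrr u _
  have hbz0 : Cx (((zr : Ix κ), none), some .bz) r0 :=
    htr _ _ _ (hsym _ _ (B1 _)) (htr _ _ _ Z2 (hr (((lst : Ix κ), some lst), true)))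
  have hay : ∀ n : ℕ, ∀ b : Bk κ, idx b = n → Cx (b, some .ay) r0 := by
    intro n
    induction n using Nat.strong_induction_on with
    | _ n ih =>
      intro b hn
      by_cases hb : b = (zr, none)
      · subst hb
        exact htr _ _ _ (A1 _) (htr _ _ _ Z1 (hr (((zr : Ix κ), none), true)))
      · have h1 := idx_pvB b hb
        refine htr _ _ _ (A2 b) ?_
        by_cases hb' : pvB b = (zr, none)
        · rw [hb']
          exact hbz0
        · have h2 := ih (idx (pvB b)) (by omega) (pvB b) rfl
          exact htr _ _ _ (hsym _ _ (B1 _)) (htr _ _ _ (hsym _ _ (B2 _ hb'))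
            (htr _ _ _ (hsym _ _ (A1 _)) h2))
  have hall : ∀ v : Hs κ, Cx v r0 := by
    rintro ⟨b, s⟩
    have haz : Cx (b, some .az) r0 := htr _ _ _ (hsym _ _ (A1 b)) (hay _ b rfl)
    have hby : Cx (b, some .by') r0 := by
      by_cases hb : b = (zr, none)
      · subst hb
        exact htr _ _ _ Z2 (hr (((lst : Ix κ), some lst), true))
      · exact htr _ _ _ (hsym _ _ (B2 b hb)) haz
    rcases s with _ | s
    · exact htr _ _ _ (N1 b) (hr (b, false))
    · cases s with
      | ax => exact hr (b, false)
      | ay => exact hay _ b rfl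
      | az => exact haz
      | bv => exact htr _ _ _ (V1 b) (hr (b, true))
      | bx => exact hr (b, true)
      | by' => exact hby
      | bz => exact htr _ _ _ (hsym _ _ (B1 b)) hby
  intro v w
  exact htr _ _ _ (hall v) (hsym _ _ (hall w))

end Pool.Agent.H54.EMC
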