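import Pool.Agent.H54.EMC.Num

/-!
# Board `emc_modules`, row LS: the matrix in coordinates
-/

set_option autoImplicit false

open Finset Pool.Agent.H72.EM

namespace Pool.Agent.H54.EMC

variable {κ m : ℕ}

/-- lists with the same numbers -/
theorem eq_of_num (l l' : List Qd) (h : ∀ q ∈ l, Adm κ m q) (h' : ∀ q ∈ l', Adm κ m q)
    (he : l.map (num κ m) = l'.map (num κ m)) : l = l' := by
  induction l generalizing l' with
  | nil =>
    cases l' with
    | nil => rfl
    | cons a t => simp at he
  | cons a t ih =>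
    cases l' with
    | nil => simp at he
    | cons a' t' =>
      rw [List.map_cons, List.map_cons, List.cons.injEq] at he
      have h1 : a = a' := num_inj (h a List.mem_cons_self) (h' a' List.mem_cons_self) he.1
      have h2 := ih t' (fun q hq => h q (List.mem_cons_of_mem _ hq))
        (fun q hq => h' q (List.mem_cons_of_mem _ hq)) he.2
      rw [h1, h2]

theorem list_co (E : Vt κ m ≃ Fin (szN κ m)) (hE : ∀ v, (E v).val = nV v) :
    (List.finRange (szN κ m)).map (fun a => co (E.symm a)) = Lq κ m := by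
  refine eq_of_num (κ := κ) (m := m) _ _ ?_ ?_ ?_
  · intro q hq
    obtain ⟨a, _, rfl⟩ := List.mem_map.1 hq
    exact co_adm _
  · intro q hq
    exact (mem_Lq q).1 hq
  · rw [Lq_num, List.map_map]
    have h1 : (num κ m ∘ fun a => co (E.symm a)) = fun a : Fin (szN κ m) => a.val := by
      funext a
      show num κ m (co (E.symm a)) = a.val
      rw [num_co, ← hE, Equiv.apply_symm_apply]
    rw [h1]
    exact List.map_coe_finRange_eq_range

theorem cl_eq (g : ℕ → ℕ → ℕ → ℕ → List ℕ) :
    cl κ m g = (Lq κ m).flatMap fun q => g q.1 q.2.1 q.2.2.1 q.2.2.2 := by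
  unfold cl Lq
  simp only [List.flatMap_assoc]
  refine List.flatMap_congr fun i _ => List.flatMap_congr fun p _ =>
    List.flatMap_congr fun s _ => List.flatMap_congr fun r _ => ?_
  split_ifs with h
  · simp
  · simp

theorem pf_LS : T_LS := by
  intro κ m E hE f F hF
  rw [cl_eq]
  have h1 : ∀ q : Qd, (cl κ m fun i' p' s' r' => [F q.1 q.2.1 q.2.2.1 q.2.2.2 i' p' s' r']) =
      (Lq κ m).map (fun q' => F q.1 q.2.1 q.2.2.1 q.2.2.2 q'.1 q'.2.1 q'.2.2.1 q'.2.2.2) := by
    intro q
    rw [cl_eq, List.map_eq_flatMap]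
  simp only [h1]
  rw [← list_co E hE]
  unfold mat
  rw [List.flatMap_map]
  refine List.flatMap_congr fun a _ => ?_
  rw [List.map_map]
  refine List.map_congr_left fun b _ => ?_
  exact hF _ _

end Pool.Agent.H54.EMC
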