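import Pool.Agent.H54.EMC.Num

/-!
# Board `emc_modules`, row NU: the numbering of the vertices
-/

set_option autoImplicit false

open Finset Pool.Agent.H72.EM

namespace Pool.Agent.H54.EMC

theorem nV_lt {κ m : ℕ} (v : Vt κ m) : nV v < szN κ m := by
  rw [← num_co]
  exact num_lt (co_adm v)

theorem nV_inj {κ m : ℕ} {v w : Vt κ m} (h : nV v = nV w) : v = w := by
  rw [← num_co, ← num_co] at h
  exact co_inj (num_inj (co_adm v) (co_adm w) h)

theorem nV_surj {κ m n : ℕ} (hn : n < szN κ m) : ∃ v : Vt κ m, nV v = n := by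
  obtain ⟨q, hq, h1⟩ := num_surj hn
  obtain ⟨v, hv⟩ := co_surj hq
  refine ⟨v, ?_⟩
  rw [← num_co, hv, h1]

theorem pf_NU : T_NU := by
  intro κ m
  have hb : Function.Bijective (fun v : Vt κ m => (⟨nV v, nV_lt v⟩ : Fin (szN κ m))) := by
    constructor
    · intro v w h
      rw [Fin.mk.injEq] at h
      exact nV_inj h
    · rintro ⟨n, hn⟩
      obtain ⟨v, hv⟩ := nV_surj hn
      refine ⟨v, ?_⟩
      rw [Fin.mk.injEq]
      exact hv
  exact ⟨Equiv.ofBijective _ hb, fun v => rfl⟩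

end Pool.Agent.H54.EMC
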