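import Pool.Agent.H72.EM.Basic

/-!
# Board `emc_modules`: enumeration of the vertices in coordinates (for the rows NU and LS)
-/

set_option autoImplicit false

open Finset Pool.Agent.H72.EM

namespace Pool.Agent.H54.EMC

variable {κ m : ℕ}

theorem range_flat (a b : ℕ) :
    (List.range a).flatMap (fun i => (List.range b).map (fun j => i * b + j)) =
      List.range (a * b) := by
  induction a with
  | zero => simp
  | succ a ih =>
    rw [List.range_succ, List.flatMap_append, ih, add_mul, one_mul, List.range_add]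
    simp

/-- coordinates `(i, p, s, r)` -/
abbrev Qd : Type := ℕ × ℕ × ℕ × ℕ

/-- the list of all coordinates -/
def Lq (κ m : ℕ) : List Qd :=
  (List.range (2 * κ + 2)).flatMap fun i => (List.range (2 * κ + 3)).flatMap fun p =>
    (List.range 8).flatMap fun s => (List.range (szP m)).flatMap fun r =>
      if 1 ≤ s ∨ r ≤ 0 then [(i, p, s, r)] else []

/-- admissible coordinates -/
def Adm (κ m : ℕ) (q : Qd) : Prop :=
  q.1 < 2 * κ + 2 ∧ q.2.1 < 2 * κ + 3 ∧ q.2.2.1 < 8 ∧ q.2.2.2 < szP m ∧
    (1 ≤ q.2.2.1 ∨ q.2.2.2 ≤ 0)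

/-- the number in coordinates -/
def num (κ m : ℕ) (q : Qd) : ℕ := (q.1 * (2 * κ + 3) + q.2.1) * szB m +
  (if q.2.2.1 = 0 then 0 else 1 + (q.2.2.1 - 1) * szP m + q.2.2.2)

/-- the coordinates of a vertex -/
def co (v : Vt κ m) : Qd := (ci v, cp v, cs v, cr v)

theorem num_co (v : Vt κ m) : num κ m (co v) = nV v := rfl

theorem szP_pos (m : ℕ) : 0 < szP m := by unfold szP; omega

theorem mem_Lq (q : Qd) : q ∈ Lq κ m ↔ Adm κ m q := by
  obtain ⟨i, p, s, r⟩ := q
  unfold Lq Adm
  simp only [List.mem_flatMap, List.mem_range]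
  constructor
  · rintro ⟨i', hi, p', hp, s', hs, r', hr, h⟩
    split_ifs at h with hc
    · rw [List.mem_singleton] at h
      simp only [Prod.mk.injEq] at h
      obtain ⟨rfl, rfl, rfl, rfl⟩ := h
      exact ⟨hi, hp, hs, hr, hc⟩
    · exact absurd h List.not_mem_nil
  · rintro ⟨hi, hp, hs, hr, hc⟩
    refine ⟨i, hi, p, hp, s, hs, r, hr, ?_⟩
    rw [if_pos hc]
    exact List.mem_singleton.2 rfl

/-- one block -/
theorem block (i p : ℕ) :
    (List.range 8).flatMap (fun s => (List.range (szP m)).flatMap fun r =>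
      (if 1 ≤ s ∨ r ≤ 0 then [((i, p, s, r) : Qd)] else []).map (num κ m)) =
    (List.range (szB m)).map (fun t => (i * (2 * κ + 3) + p) * szB m + t) := by
  have h8 : List.range 8 = 0 :: (List.range 7).map Nat.succ := List.range_succ_eq_map
  have h0 : (List.range (szP m)).flatMap (fun r =>
      (if 1 ≤ (0 : ℕ) ∨ r ≤ 0 then [((i, p, 0, r) : Qd)] else []).map (num κ m)) =
      [(i * (2 * κ + 3) + p) * szB m] := by
    obtain ⟨n, hn⟩ := Nat.exists_eq_succ_of_ne_zero (szP_pos m).ne'
    rw [hn, Nat.succ_eq_add_one, List.range_succ_eq_map, List.flatMap_cons]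
    have h1 : ((List.range n).map Nat.succ).flatMap (fun r =>
        (if 1 ≤ (0 : ℕ) ∨ r ≤ 0 then [((i, p, 0, r) : Qd)] else []).map (num κ m)) = [] := by
      rw [List.flatMap_eq_nil_iff]
      intro r hr
      obtain ⟨r', _, rfl⟩ := List.mem_map.1 hr
      rw [if_neg (by omega), List.map_nil]
    rw [h1, List.append_nil, if_pos (by omega), List.map_singleton]
    simp [num]
  have h7 : ((List.range 7).map Nat.succ).flatMap (fun s => (List.range (szP m)).flatMap fun r =>
      (if 1 ≤ s ∨ r ≤ 0 then [((i, p, s, r) : Qd)] else []).map (num κ m)) =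
      (List.range (7 * szP m)).map (fun t => (i * (2 * κ + 3) + p) * szB m + (1 + t)) := by
    rw [← range_flat 7 (szP m), List.map_flatMap, List.flatMap_map]
    refine List.flatMap_congr fun s _ => ?_
    rw [List.map_map, ← List.flatMap_singleton' ((List.range (szP m)).map _), List.flatMap_map]
    refine List.flatMap_congr fun r _ => ?_
    rw [if_pos (by omega), List.map_singleton]
    simp [num]
    ring
  rw [h8, List.flatMap_cons, h0, h7]
  unfold szB
  rw [List.range_add, List.map_append, List.map_map]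
  simp
  intro a _
  ring

theorem Lq_num : (Lq κ m).map (num κ m) = List.range (szN κ m) := by
  unfold Lq
  simp only [List.map_flatMap, block]
  have h1 : ∀ i : ℕ, (List.range (2 * κ + 3)).flatMap (fun p =>
      (List.range (szB m)).map (fun t => (i * (2 * κ + 3) + p) * szB m + t)) =
      (List.range ((2 * κ + 3) * szB m)).map (fun u => i * ((2 * κ + 3) * szB m) + u) := by
    intro i
    rw [← range_flat (2 * κ + 3) (szB m), List.map_flatMap]
    refine List.flatMap_congr fun p _ => ?_
    rw [List.map_map]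
    refine List.map_congr_left fun t _ => ?_
    simp only [Function.comp]
    ring
  simp only [h1]
  rw [range_flat]
  congr 1
  unfold szN
  ring

theorem num_inj {q q' : Qd} (hq : Adm κ m q) (hq' : Adm κ m q') (h : num κ m q = num κ m q') :
    q = q' := by
  have hn : ((Lq κ m).map (num κ m)).Nodup := by
    rw [Lq_num]
    exact List.nodup_range
  exact List.inj_on_of_nodup_map hn ((mem_Lq q).2 hq) ((mem_Lq q').2 hq') h

theorem num_surj {n : ℕ} (hn : n < szN κ m) : ∃ q, Adm κ m q ∧ num κ m q = n := by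
  have h1 : n ∈ (Lq κ m).map (num κ m) := by
    rw [Lq_num]
    exact List.mem_range.2 hn
  obtain ⟨q, hq, h⟩ := List.mem_map.1 h1
  exact ⟨q, (mem_Lq q).1 hq, h⟩

theorem num_lt {q : Qd} (hq : Adm κ m q) : num κ m q < szN κ m := by
  have h1 : num κ m q ∈ (Lq κ m).map (num κ m) := List.mem_map.2 ⟨q, (mem_Lq q).2 hq, rfl⟩
  rw [Lq_num] at h1
  exact List.mem_range.1 h1

/-! ### coordinates of the vertices -/

theorem nP_lt (q : PV m) : nP q < szP m := by
  unfold szP
  cases q with
  | c1 => show 0 < _; omega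
  | c2 => show 1 < _; omega
  | z => show 2 < _; omega
  | w => show 3 < _; omega
  | a => show 4 < _; omega
  | x j => show 5 + j.val < _; have := j.2; omega
  | y j => show 5 + (m + 1) + j.val < _; have := j.2; omega

theorem nP_inj {q q' : PV m} (h : nP q = nP q') : q = q' := by
  cases q with
  | c1 => cases q' <;> simp only [nP] at h <;> first | rfl | (exfalso; omega)
  | c2 => cases q' <;> simp only [nP] at h <;> first | rfl | (exfalso; omega)
  | z => cases q' <;> simp only [nP] at h <;> first | rfl | (exfalso; omega)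
  | w => cases q' <;> simp only [nP] at h <;> first | rfl | (exfalso; omega)
  | a => cases q' <;> simp only [nP] at h <;> first | rfl | (exfalso; omega)
  | x j =>
    have := j.2
    cases q' with
    | x j' =>
      simp only [nP] at h
      have : j = j' := Fin.ext (by omega)
      rw [this]
    | y j' => simp only [nP] at h; exfalso; omega
    | c1 => simp only [nP] at h; exfalso; omega
    | c2 => simp only [nP] at h; exfalso; omega
    | z => simp only [nP] at h; exfalso; omega
    | w => simp only [nP] at h; exfalso; omega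
    | a => simp only [nP] at h; exfalso; omega
  | y j =>
    have := j.2
    cases q' with
    | x j' => have := j'.2; simp only [nP] at h; exfalso; omega
    | y j' =>
      simp only [nP] at h
      have : j = j' := Fin.ext (by omega)
      rw [this]
    | c1 => simp only [nP] at h; exfalso; omega
    | c2 => simp only [nP] at h; exfalso; omega
    | z => simp only [nP] at h; exfalso; omega
    | w => simp only [nP] at h; exfalso; omega
    | a => simp only [nP] at h; exfalso; omega

theorem nP_surj {r : ℕ} (hr : r < szP m) : ∃ q : PV m, nP q = r := by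
  unfold szP at hr
  by_cases h0 : r = 0
  · exact ⟨.c1, h0.symm⟩
  by_cases h1 : r = 1
  · exact ⟨.c2, h1.symm⟩
  by_cases h2 : r = 2
  · exact ⟨.z, h2.symm⟩
  by_cases h3 : r = 3
  · exact ⟨.w, h3.symm⟩
  by_cases h4 : r = 4
  · exact ⟨.a, h4.symm⟩
  by_cases h5 : r < 5 + (m + 1)
  · refine ⟨.x ⟨r - 5, by omega⟩, ?_⟩
    show 5 + (r - 5) = r
    omega
  · refine ⟨.y ⟨r - (5 + (m + 1)), by omega⟩, ?_⟩
    show 5 + (m + 1) + (r - (5 + (m + 1))) = r
    omega

theorem nS_pos (s : Sl) : 1 ≤ nS s := by cases s <;> simp [nS]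

theorem nS_lt (s : Sl) : nS s < 8 := by cases s <;> simp [nS]

theorem nS_inj {s s' : Sl} (h : nS s = nS s') : s = s' := by
  cases s <;> cases s' <;> first | rfl | (exfalso; simp [nS] at h)

theorem nS_surj {s : ℕ} (h1 : 1 ≤ s) (h8 : s < 8) : ∃ t : Sl, nS t = s := by
  interval_cases s
  · exact ⟨.ax, rfl⟩
  · exact ⟨.ay, rfl⟩
  · exact ⟨.az, rfl⟩
  · exact ⟨.bv, rfl⟩
  · exact ⟨.bx, rfl⟩
  · exact ⟨.by', rfl⟩
  · exact ⟨.bz, rfl⟩

theorem co_adm (v : Vt κ m) : Adm κ m (co v) := by
  obtain ⟨⟨i, o⟩, u⟩ := v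
  refine ⟨i.2, ?_, ?_, ?_, ?_⟩
  · cases o with
    | none => show 0 < _; omega
    | some j => show j.val + 1 < _; have := j.2; omega
  · cases u with
    | none => show 0 < 8; omega
    | some t => exact nS_lt t.1
  · cases u with
    | none => exact szP_pos m
    | some t => exact nP_lt t.2
  · cases u with
    | none => exact Or.inr le_rfl
    | some t => exact Or.inl (nS_pos t.1)

theorem co_inj {v w : Vt κ m} (h : co v = co w) : v = w := by
  obtain ⟨⟨i, o⟩, u⟩ := v
  obtain ⟨⟨i', o'⟩, u'⟩ := w
  unfold co at h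
  simp only [Prod.mk.injEq] at h
  obtain ⟨h1, h2, h3, h4⟩ := h
  have e1 : i = i' := Fin.ext h1
  have e2 : o = o' := by
    cases o with
    | none =>
      cases o' with
      | none => rfl
      | some j' => exact absurd h2 (by show (0 : ℕ) ≠ j'.val + 1; omega)
    | some j =>
      cases o' with
      | none => exact absurd h2 (by show j.val + 1 ≠ 0; omega)
      | some j' =>
        have h5 : j.val + 1 = j'.val + 1 := h2
        have h6 : j = j' := Fin.ext (by omega)
        rw [h6]
  have e3 : u = u' := by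
    cases u with
    | none =>
      cases u' with
      | none => rfl
      | some t' =>
        have h5 : 0 = nS t'.1 := h3
        have h6 := nS_pos t'.1
        omega
    | some t =>
      cases u' with
      | none =>
        have h5 : nS t.1 = 0 := h3
        have h6 := nS_pos t.1
        omega
      | some t' =>
        have h5 : t = t' := Prod.ext (nS_inj h3) (nP_inj h4)
        rw [h5]
  rw [e1, e2, e3]

theorem co_surj {q : Qd} (hq : Adm κ m q) : ∃ v : Vt κ m, co v = q := by
  obtain ⟨i, p, s, r⟩ := q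
  obtain ⟨h1, h2, h3, h4, h5⟩ := hq
  have hp : ∃ o : Option (Ix κ), (∀ u : Option (Sl × PV m), cp ((((⟨i, h1⟩ : Ix κ), o), u) : Vt κ m) = p) := by
    rcases Nat.eq_zero_or_pos p with h | h
    · exact ⟨none, fun u => h.symm⟩
    · have h2' : p < 2 * κ + 3 := h2
      refine ⟨some ⟨p - 1, by omega⟩, fun u => ?_⟩
      show p - 1 + 1 = p
      omega
  obtain ⟨o, ho⟩ := hp
  rcases Nat.eq_zero_or_pos s with h | h
  · subst h
    have h6 : r = 0 := by
      rcases h5 with h7 | h7
      · exact absurd h7 (by show ¬ 1 ≤ (0 : ℕ); omega)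
      · exact Nat.le_zero.1 h7
    subst h6
    refine ⟨((⟨i, h1⟩, o), none), ?_⟩
    unfold co
    rw [ho none]
    rfl
  · obtain ⟨t, ht⟩ := nS_surj h h3
    obtain ⟨x, hx⟩ := nP_surj h4
    refine ⟨((⟨i, h1⟩, o), some (t, x)), ?_⟩
    unfold co
    rw [ho (some (t, x))]
    show (i, p, nS t, nP x) = (i, p, s, r)
    rw [ht, hx]

end Pool.Agent.H54.EMC
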